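import Pool.Agent.Work.MP_46fa68_19.m8_13_5.Chk
import Pool.Agent.Work.MP_46fa68_31.m8_13_5.R
import Pool.Agent.Work.MP_46fa68_31.Cell
import Pool.Agent.Work.MP_46fa68_95.PsdB
import Pool.Agent.Work.MP_46fa68_74.Scale

/-! # MP_46fa68_co, full marked kernel m8_13_5: the gaps -/

set_option autoImplicit false

namespace Pool.JM.MK.m8_13_5

open Finset Pool.EG Pool.JM

theorem sc : ScIneq (12 + 1) (12 + 1 - (6 + 2)) (((9148262028609626804458542587462820 : ℤ) : ℝ) / 2 ^ 112)
    (((1234011318493808399088018965161370 : ℤ) : ℝ) / 2 ^ 112) (((-82579175308789104431018649978694917 : ℤ) : ℝ) / 2 ^ 112)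
    ((((-10978249661478251634305535343110483 : ℤ) : ℝ) + ((54819718758561365117982554020939224 : ℤ) : ℝ)) / 2 ^ 112 - (6 + 2).factorial * (1 / 10 ^ 19))
    ((((-10978249661478251634305535343110483 : ℤ) : ℝ)) / 2 ^ 112 - (6 + 2).factorial * (1 / 10 ^ 19)) := by
  have hc0 : 16383 = RT.cd (range 14) := by
    have h := cd_range 14
    change 16383 = cd (range 14)
    rw [h]
    norm_num
  obtain ⟨al, h1, h2, h3⟩ := RT.cellChk_sound (N := 12 + 1) (M := 14) (m := 6 + 2) (n := 12)
    (K := 23) (R := 14) (S := (2 : ℝ) ^ 112) (cs := cs) (by norm_num) (by norm_num)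
    (by norm_num) (by positivity) hL (by norm_num) (by norm_num) (by norm_num) (by norm_num) hc0
    (by rfl) (by rfl) (by norm_num [Nat.factorial]) (by norm_num [Nat.factorial])
    (fun k hk => hcs k (by omega)) hct hsc hcellC
  exact full_tables (n := 12) (j := 6) (M := 14) (L := 360360) (W := 27) (R := 14) (N := 56)
    (T := 2 ^ 32) (S := (2 : ℝ) ^ 112) (by norm_num) (by norm_num) hL (by norm_num) (by norm_num)
    (by norm_num) (by positivity) tB tD cs hcs hN hGz hG hsB hsD hr0 (by norm_num) hTB2 hTD hd hE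
    (chP_sound (by positivity) (by norm_num) (hcs 12 (by norm_num)) hpsd) al h1 h2 h3
    (RT.rowChk_sound (N := 12 + 1) (K := 23) (R := 14) (cs := cs 8) (by norm_num) (by norm_num)
      (by positivity) hL (by norm_num) (by norm_num) (by norm_num) (by norm_num) hc0 (by rfl) hsc1
      hrowC)
    (RT.bothChk_sound (N := 12 + 1) (K := 23) (R := 14) (m := 6 + 2) (by norm_num) (by norm_num)
      (by positivity) hL (by norm_num) (by norm_num) (by norm_num) (by norm_num) hc0 (by rfl) hsc
      hbothC)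

theorem gap_671o1000_223o1000_31o40 : Gap 13 5 (671 / 1000) (223 / 1000) (31 / 40) := by
  have h : ExclS (12 + 1) (12 + 1 - (6 + 2)) (671 / 1000) (223 / 1000) (31 / 40) := by
    refine excl_of_scaled (by norm_num) sc (by norm_num) (by norm_num) ?_ ?_ ?_ ?_ ?_ ?_ ?_ ?_ <;>
      norm_num [Nat.factorial]
  exact h.gap

theorem gap_169o250_11o50_389o500 : Gap 13 5 (169 / 250) (11 / 50) (389 / 500) := by
  have h : ExclS (12 + 1) (12 + 1 - (6 + 2)) (169 / 250) (11 / 50) (389 / 500) := by
    refine excl_of_scaled (by norm_num) sc (by norm_num) (by norm_num) ?_ ?_ ?_ ?_ ?_ ?_ ?_ ?_ <;>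
      norm_num [Nat.factorial]
  exact h.gap

theorem gap_77o100_181o1000_817o1000 : Gap 13 5 (77 / 100) (181 / 1000) (817 / 1000) := by
  have h : ExclS (12 + 1) (12 + 1 - (6 + 2)) (77 / 100) (181 / 1000) (817 / 1000) := by
    refine excl_of_scaled (by norm_num) sc (by norm_num) (by norm_num) ?_ ?_ ?_ ?_ ?_ ?_ ?_ ?_ <;>
      norm_num [Nat.factorial]
  exact h.gap

end Pool.JM.MK.m8_13_5
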